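import Pool.Agent.Lib.LU3.Assembly

/-!
# LU3: row 2a (the start `y₁ = y - z ^ N`)
-/

set_option autoImplicit false

open Polynomial

namespace Pool.Agent.LU3.R2a

open Pool.Agent.H15JM (RVal)
open Pool.Agent.LU1
open Pool.Agent.LU3.Asm

universe u

variable {k Ω : Type u} [Field k] [Field Ω] [Algebra k Ω] {v : RVal Ω} {r : ℕ}

/-! ### the change of the parameter -/

theorem adj_eq (S : Set Ω) (y z : Ω) (N : ℕ) :
    Algebra.adjoin k (S ∪ {y - z ^ N, z}) = Algebra.adjoin k (S ∪ {y, z}) := by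
  apply le_antisymm
  · rw [Algebra.adjoin_le_iff]
    have hy : y ∈ Algebra.adjoin k (S ∪ {y, z}) :=
      Algebra.subset_adjoin (Or.inr (Or.inl rfl))
    have hz : z ∈ Algebra.adjoin k (S ∪ {y, z}) :=
      Algebra.subset_adjoin (Or.inr (Or.inr rfl))
    rintro x (hx | rfl | rfl)
    · exact Algebra.subset_adjoin (Or.inl hx)
    · exact sub_mem hy (pow_mem hz N)
    · exact hz
  · rw [Algebra.adjoin_le_iff]
    have hy : y - z ^ N ∈ Algebra.adjoin k (S ∪ {y - z ^ N, z}) :=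
      Algebra.subset_adjoin (Or.inr (Or.inl rfl))
    have hz : z ∈ Algebra.adjoin k (S ∪ {y - z ^ N, z}) :=
      Algebra.subset_adjoin (Or.inr (Or.inr rfl))
    rintro x (hx | rfl | rfl)
    · exact Algebra.subset_adjoin (Or.inl hx)
    · have h1 := add_mem hy (pow_mem hz N)
      rwa [sub_add_cancel] at h1
    · exact hz

theorem val_sub_pow (F : RF2 k v) {N : ℕ} (hN : v F.y < N * v F.z) :
    F.y - F.z ^ N ≠ 0 ∧ v (F.y - F.z ^ N) = v F.y := by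
  have hz : F.z ^ N ≠ 0 := pow_ne_zero N F.z_ne
  have h1 := v.add_of_lt F.y_ne (neg_ne_zero.2 hz)
    (by rw [v.map_neg _ hz, v.map_pow F.z_ne]; exact hN)
  rwa [← sub_eq_add_neg] at h1

/-- The frame with the first parameter `y - z ^ N`. -/
noncomputable def shift (F : RF2 k v) (N : ℕ) (hN : v F.y < N * v F.z) : RF2 k v where
  Γ := F.Γ
  fg := F.fg
  full := F.full
  χ := F.χ
  χ_ne := F.χ_ne
  χ_add := F.χ_add
  χ_val := F.χ_val
  y := F.y - F.z ^ N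
  y_ne := (val_sub_pow F hN).1
  y_pos := by rw [(val_sub_pow F hN).2]; exact F.y_pos
  z := F.z
  z_ne := F.z_ne
  z_pos := F.z_pos
  alg := by
    rw [adj_eq]
    exact F.alg

theorem shift_P (F : RF2 k v) (N : ℕ) (hN : v F.y < N * v F.z) : (shift F N hN).P = F.P := by
  unfold RF2.P shift
  simp only
  exact adj_eq _ _ _ _

theorem shift_R (F : RF2 k v) (N : ℕ) (hN : v F.y < N * v F.z) : (shift F N hN).R = F.R := by
  unfold RF2.R
  rw [shift_P]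

theorem shift_un (F : RF2 k v) (N : ℕ) (hN : v F.y < N * v F.z) {f : Ω} :
    (shift F N hN).Un f ↔ F.Un f := by
  unfold RF2.Un
  rw [shift_R]

theorem le_shift (F : RF2 k v) (N : ℕ) (hN : v F.y < N * v F.z) : F.Le (shift F N hN) := by
  refine ⟨(shift_R F N hN).ge, fun _ h => h, fun γ hγ => ?_, fun f hf => ?_⟩
  · have h1 : F.χ γ / (shift F N hN).χ γ = 1 := div_self (F.χ_ne γ hγ)
    rw [h1]
    exact Un.one
  · rw [shift_R] at hf
    exact ⟨f, hf, 1, F.R.one_mem, Mono.un Un.one, by rw [div_one]⟩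

/-! ### elements of the polynomial ring -/

/-- Nonnegative exponents. -/
def T (F : RF2 k v) : Type := {γ : ℝ // γ ∈ F.Γ ∧ 0 ≤ γ}

/-- The terms. -/
noncomputable def term (F : RF2 k v) (t : T F × ℕ × ℕ) : Ω :=
  F.χ t.1.1 * F.y ^ t.2.1 * F.z ^ t.2.2

theorem term_mul (F : RF2 k v) (s t : T F × ℕ × ℕ) :
    term F s * term F t = term F (⟨s.1.1 + t.1.1, F.Γ.add_mem s.1.2.1 t.1.2.1,
      add_nonneg s.1.2.2 t.1.2.2⟩, s.2.1 + t.2.1, s.2.2 + t.2.2) := by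
  unfold term
  simp only
  rw [F.χ_add _ s.1.2.1 _ t.1.2.1, pow_add, pow_add]
  ring

theorem P_span (F : RF2 k v) {a : Ω} (ha : a ∈ F.P) :
    a ∈ Submodule.span k (Set.range (term F)) := by
  have hmul : Submodule.span k (Set.range (term F)) * Submodule.span k (Set.range (term F)) ≤
      Submodule.span k (Set.range (term F)) := by
    rw [Submodule.span_mul_span, Submodule.span_le]
    rintro _ ⟨_, ⟨s, rfl⟩, _, ⟨t, rfl⟩, rfl⟩
    simp only
    rw [term_mul]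
    exact Submodule.subset_span ⟨_, rfl⟩
  have h1 : ∀ t : T F × ℕ × ℕ, term F t ∈ Submodule.span k (Set.range (term F)) :=
    fun t => Submodule.subset_span ⟨t, rfl⟩
  have z0 : (0 : ℝ) ∈ F.Γ ∧ (0 : ℝ) ≤ 0 := ⟨F.Γ.zero_mem, le_rfl⟩
  unfold RF2.P at ha
  induction ha using Algebra.adjoin_induction with
  | mem x hx =>
    rcases hx with ⟨γ, hγ, rfl⟩ | rfl | rfl
    · have h2 := h1 (⟨γ, hγ⟩, 0, 0)
      rwa [show term F (⟨γ, hγ⟩, 0, 0) = F.χ γ by unfold term; simp] at h2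
    · have h2 := h1 (⟨0, z0⟩, 1, 0)
      rwa [show term F (⟨0, z0⟩, 1, 0) = F.y by unfold term; simp [χ_zero F]] at h2
    · have h2 := h1 (⟨0, z0⟩, 0, 1)
      rwa [show term F (⟨0, z0⟩, 0, 1) = F.z by unfold term; simp [χ_zero F]] at h2
  | algebraMap c =>
    have h2 := Submodule.smul_mem _ c (h1 (⟨0, z0⟩, 0, 0))
    rw [show term F (⟨0, z0⟩, 0, 0) = 1 by unfold term; simp [χ_zero F]] at h2
    rwa [Algebra.algebraMap_eq_smul_one]
  | add x y _ _ hx hy => exact add_mem hx hy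
  | mul x y _ _ hx hy => exact hmul (Submodule.mul_mem_mul hx hy)

theorem P_sum (F : RF2 k v) {a : Ω} (ha : a ∈ F.P) :
    ∃ c : (T F × ℕ × ℕ) →₀ k, a = ∑ t ∈ c.support, c t • term F t := by
  obtain ⟨c, hc⟩ := Finsupp.mem_span_range_iff_exists_finsupp.1 (P_span F ha)
  exact ⟨c, hc.symm⟩

/-- A positive exponent below finitely many given positive exponents. -/
theorem exists_delta (F : RF2 k v) (E : Finset ℝ) (hE : ∀ γ ∈ E, γ ∈ F.Γ ∧ 0 < γ) :
    ∃ δ ∈ F.Γ, 0 < δ ∧ ∀ γ ∈ E, δ ≤ γ := by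
  classical
  obtain ⟨m, hm, hm1⟩ := F.full F.y F.y_ne
  have h0 : 0 < (m : ℝ) * v F.y := mul_pos (by exact_mod_cast hm) F.y_pos
  obtain ⟨δ, hδ, hmin⟩ := Finset.exists_min_image (insert ((m : ℝ) * v F.y) E) id
    ⟨_, Finset.mem_insert_self _ _⟩
  have h1 : δ ∈ F.Γ ∧ 0 < δ := by
    rcases Finset.mem_insert.1 hδ with rfl | h
    · exact ⟨hm1, h0⟩
    · exact hE δ h
  exact ⟨δ, h1.1, h1.2, fun γ hγ => hmin γ (Finset.mem_insert_of_mem hγ)⟩

theorem mem_P_χ (F : RF2 k v) {γ : ℝ} (hγ : γ ∈ F.Γ) (h0 : 0 ≤ γ) : F.χ γ ∈ F.P :=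
  Algebra.subset_adjoin (Or.inl ⟨γ, ⟨hγ, h0⟩, rfl⟩)

theorem mem_P_y (F : RF2 k v) : F.y ∈ F.P := Algebra.subset_adjoin (Or.inr (Or.inl rfl))

theorem mem_P_z (F : RF2 k v) : F.z ∈ F.P := Algebra.subset_adjoin (Or.inr (Or.inr rfl))

/-- `y ^ i = z ^ (N i) + (y - z ^ N) h` with `h` in the polynomial ring. -/
theorem y_pow (F : RF2 k v) (N i : ℕ) :
    ∃ h ∈ F.P, F.y ^ i = F.z ^ (N * i) + (F.y - F.z ^ N) * h := by
  refine ⟨∑ j ∈ Finset.range i, F.y ^ j * (F.z ^ N) ^ (i - 1 - j), ?_, ?_⟩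
  · exact sum_mem fun j _ => mul_mem (pow_mem (mem_P_y F) j)
      (pow_mem (pow_mem (mem_P_z F) N) _)
  · rw [(Commute.all F.y (F.z ^ N)).mul_geom_sum₂ i, pow_mul]
    ring

/-- One term. -/
theorem term_split (F : RF2 k v) (N : ℕ) {κ δ : ℝ} (hκ : κ ∈ F.Γ) (hδ : δ ∈ F.Γ)
    (t : T F × ℕ × ℕ) (h : t.1.1 ≠ κ → δ ≤ t.1.1 - κ) (c : k) :
    ∃ b ∈ F.P, ∃ a ∈ F.P, c • term F t =
      F.χ κ * ((if t.1.1 = κ then c • F.z ^ (N * t.2.1 + t.2.2) else 0) +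
        (F.y - F.z ^ N) * b + F.χ δ * a) := by
  obtain ⟨⟨γ, hγ, h0⟩, i, j⟩ := t
  simp only at h ⊢
  unfold term
  simp only
  by_cases h1 : γ = κ
  · rw [if_pos h1]
    obtain ⟨g, hg, he⟩ := y_pow F N i
    refine ⟨c • (g * F.z ^ j), F.P.smul_mem (mul_mem hg (pow_mem (mem_P_z F) j)) c, 0,
      F.P.zero_mem, ?_⟩
    rw [he, h1, pow_add]
    simp only [Algebra.smul_def]
    ring
  · rw [if_neg h1]
    refine ⟨0, F.P.zero_mem, c • (F.χ (γ - κ - δ) * F.y ^ i * F.z ^ j), F.P.smul_mem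
      (mul_mem (mul_mem (mem_P_χ F (F.Γ.sub_mem (F.Γ.sub_mem hγ hκ) hδ) (by linarith [h h1]))
        (pow_mem (mem_P_y F) i)) (pow_mem (mem_P_z F) j)) c, ?_⟩
    have h2 : F.χ γ = F.χ κ * (F.χ δ * F.χ (γ - κ - δ)) := by
      rw [← F.χ_add _ hδ _ (F.Γ.sub_mem (F.Γ.sub_mem hγ hκ) hδ),
        ← F.χ_add _ hκ _ (F.Γ.add_mem hδ (F.Γ.sub_mem (F.Γ.sub_mem hγ hκ) hδ))]
      congr 1
      ring
    rw [h2]
    simp only [Algebra.smul_def]
    ring

/-- The sum of the terms. -/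
theorem sum_split (F : RF2 k v) (N : ℕ) {κ δ : ℝ} (hκ : κ ∈ F.Γ) (hδ : δ ∈ F.Γ)
    (S : Finset (T F × ℕ × ℕ)) (h : ∀ t ∈ S, t.1.1 ≠ κ → δ ≤ t.1.1 - κ)
    (c : T F × ℕ × ℕ → k) :
    ∃ b ∈ F.P, ∃ a ∈ F.P, ∑ t ∈ S, c t • term F t =
      F.χ κ * (aeval F.z (∑ t ∈ S, if t.1.1 = κ then C (c t) * X ^ (N * t.2.1 + t.2.2) else 0) +
        (F.y - F.z ^ N) * b + F.χ δ * a) := by
  classical
  induction S using Finset.induction_on with
  | empty => exact ⟨0, F.P.zero_mem, 0, F.P.zero_mem, by simp⟩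
  | insert t S ht ih =>
    obtain ⟨b, hb, a, ha, he⟩ := ih fun s hs => h s (Finset.mem_insert_of_mem hs)
    obtain ⟨b', hb', a', ha', he'⟩ := term_split F N hκ hδ t (h t (Finset.mem_insert_self t S))
      (c t)
    refine ⟨b' + b, add_mem hb' hb, a' + a, add_mem ha' ha, ?_⟩
    rw [Finset.sum_insert ht, Finset.sum_insert ht, he, he', map_add]
    have h3 : aeval F.z (if t.1.1 = κ then C (c t) * X ^ (N * t.2.1 + t.2.2) else 0) =
        (if t.1.1 = κ then c t • F.z ^ (N * t.2.1 + t.2.2) else 0) := by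
      split_ifs with h4
      · rw [map_mul, aeval_C, map_pow, aeval_X, Algebra.smul_def]
      · rw [map_zero]
    rw [h3]
    ring

theorem term_ext {F : RF2 k v} {s t : T F × ℕ × ℕ} (h1 : s.1.1 = t.1.1) (h2 : s.2.1 = t.2.1)
    (h3 : s.2.2 = t.2.2) : s = t :=
  Prod.ext (Subtype.ext h1) (Prod.ext h2 h3)

/-- The polynomial of the lowest terms does not vanish. -/
theorem low_ne {F : RF2 k v} {N : ℕ} {κ : ℝ} {S : Finset (T F × ℕ × ℕ)}
    (hN : ∀ t ∈ S, t.2.2 < N) {c : T F × ℕ × ℕ → k} {s : T F × ℕ × ℕ} (hs : s ∈ S)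
    (hκ : s.1.1 = κ) (hc : c s ≠ 0) :
    (∑ t ∈ S, if t.1.1 = κ then C (c t) * X ^ (N * t.2.1 + t.2.2) else 0 : k[X]) ≠ 0 := by
  classical
  intro h0
  have h1 := congrArg (fun p : k[X] => p.coeff (N * s.2.1 + s.2.2)) h0
  simp only [finsetSum_coeff, coeff_zero] at h1
  rw [Finset.sum_eq_single s] at h1
  · rw [if_pos hκ, coeff_C_mul, coeff_X_pow_self, mul_one] at h1
    exact hc h1
  · intro t ht hne
    by_cases h2 : t.1.1 = κ
    · rw [if_pos h2, coeff_C_mul, coeff_X_pow, if_neg, mul_zero]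
      intro h3
      apply hne
      have hm : (N * s.2.1 + s.2.2) % N = (N * t.2.1 + t.2.2) % N := by rw [h3]
      rw [Nat.mul_add_mod, Nat.mul_add_mod, Nat.mod_eq_of_lt (hN s hs),
        Nat.mod_eq_of_lt (hN t ht)] at hm
      have hN0 : 0 < N := lt_of_le_of_lt (Nat.zero_le _) (hN s hs)
      refine term_ext (h2.trans hκ.symm) ?_ hm.symm
      have h4 : N * s.2.1 = N * t.2.1 := by omega
      exact (Nat.eq_of_mul_eq_mul_left hN0 h4).symm
    · rw [if_neg h2, coeff_zero]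
  · intro h; exact absurd hs h

/-- The lowest terms: `q(z) = z ^ D u` with a unit `u`. -/
theorem low_unit (h2 : Ctx2 k v r) (F : RF2 k v) {q : k[X]} (hq : q ≠ 0) :
    ∃ D : ℕ, ∃ u, F.Un u ∧ aeval F.z q = u * F.z ^ D := by
  obtain ⟨q', he, hq'⟩ := exists_eq_pow_rootMultiplicity_mul_and_not_dvd q hq 0
  rw [C_0, sub_zero] at he hq'
  have hc : q'.coeff 0 ≠ 0 := fun h => hq' (X_dvd_iff.2 h)
  refine ⟨q.rootMultiplicity 0, aeval F.z q', ?_, ?_⟩
  · have hmem : ∀ p : k[X], aeval F.z p ∈ F.R := fun p =>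
      P_le F (Algebra.adjoin_singleton_le (mem_P_z F) (aeval_mem_adjoin_singleton k F.z))
    have h3 : aeval F.z q' = algebraMap k Ω (q'.coeff 0) + F.z * aeval F.z q'.divX := by
      conv_lhs => rw [← divX_mul_X_add q']
      rw [map_add, map_mul, aeval_X, aeval_C, mul_comm, add_comm]
    have h4 : VPos v (F.z * aeval F.z q'.divX) :=
      VPos.mul (fun _ => F.z_pos) (nonneg h2 (hmem _))
    obtain ⟨h5, h6⟩ := val_add_vpos (by simpa using hc) (h2.triv _ hc) h4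
    rw [← h3] at h5 h6
    exact ⟨hmem _, h5, h6⟩
  · conv_lhs => rw [he]
    rw [map_mul, map_pow, aeval_X, mul_comm]

/-- Row 2a. -/
theorem row2a (k Ω : Type u) [Field k] [Field Ω] [Algebra k Ω] (v : RVal Ω) (r : ℕ) :
    Row2a k Ω v r := by
  classical
  intro h2 F f hf hf0
  obtain ⟨a, ha, b, hb, hb0, hvb, rfl⟩ := hf
  have ha0 : a ≠ 0 := by rintro rfl; simp at hf0
  obtain ⟨c, hc⟩ := P_sum F ha
  have hne : c.support.Nonempty := by
    rw [Finset.nonempty_iff_ne_empty]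
    intro h
    rw [h, Finset.sum_empty] at hc
    exact ha0 hc
  obtain ⟨s, hs, hmin⟩ := Finset.exists_min_image c.support (fun t => t.1.1) hne
  obtain ⟨δ, hδ, hδ0, hδle⟩ := exists_delta F
    ((c.support.filter fun t => t.1.1 ≠ s.1.1).image fun t => t.1.1 - s.1.1) (by
      intro γ hγ
      obtain ⟨t, ht, rfl⟩ := Finset.mem_image.1 hγ
      obtain ⟨ht1, ht2⟩ := Finset.mem_filter.1 ht
      exact ⟨F.Γ.sub_mem t.1.2.1 s.1.2.1, sub_pos.2 (lt_of_le_of_ne (hmin t ht1) (Ne.symm ht2))⟩)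
  obtain ⟨N1, hN1⟩ := exists_nat_gt (v F.y / v F.z)
  obtain ⟨N2, hN2⟩ : ∃ N2 : ℕ, ∀ t ∈ c.support, t.2.2 < N2 :=
    ⟨c.support.sup (fun t => t.2.2) + 1, fun t ht =>
      Nat.lt_succ_of_le (Finset.le_sup (f := fun t : T F × ℕ × ℕ => t.2.2) ht)⟩
  have hN : v F.y < ((max N1 N2 : ℕ) : ℝ) * v F.z := by
    rw [div_lt_iff₀ F.z_pos] at hN1
    refine hN1.trans_le (mul_le_mul_of_nonneg_right ?_ F.z_pos.le)
    exact_mod_cast le_max_left N1 N2
  obtain ⟨b', hb', a', ha', he⟩ := sum_split F (max N1 N2) s.1.2.1 hδ c.support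
    (fun t ht hne => hδle _ (Finset.mem_image.2 ⟨t, Finset.mem_filter.2 ⟨ht, hne⟩, rfl⟩)) c
  have hq := low_ne (κ := s.1.1) (N := max N1 N2) (c := c)
    (fun t ht => (hN2 t ht).trans_le (le_max_right _ _)) hs rfl (Finsupp.mem_support_iff.1 hs)
  obtain ⟨D, u, hu, hu1⟩ := low_unit h2 F hq
  have hbi : b⁻¹ ∈ F.R := loc (P_le F hb) hb0 hvb
  refine ⟨shift F (max N1 N2) hN, le_shift F _ hN, s.1.1, D, s.1.2.1, u * b⁻¹, ?_,
    b' * b⁻¹, ?_, δ, hδ, hδ0, a' * b⁻¹, ?_, ?_⟩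
  · rw [shift_un]
    exact Un.mul hu ⟨hbi, inv_ne_zero hb0, by rw [v.map_inv hb0, hvb, neg_zero]⟩
  · rw [shift_R]; exact F.R.mul_mem (P_le F hb') hbi
  · rw [shift_R]; exact F.R.mul_mem (P_le F ha') hbi
  · rw [hc, he, hu1]
    change _ = F.χ s.1.1 * (u * b⁻¹ * F.z ^ D + (F.y - F.z ^ max N1 N2) * (b' * b⁻¹) +
      F.χ δ * (a' * b⁻¹))
    ring

end Pool.Agent.LU3.R2a
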